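import Mathlib

/-!
MP_d2bbf8_co: strong 4-colourability when every odd cycle is a triangle.
-/

set_option autoImplicit false

namespace Pool.Agent.Results.MP_d2bbf8_co.EvenAndTriangles

open Finset

/-- Two fixed-point-free involutions admit a common bichromatic 2-colouring. -/
lemma two_inv {W : Type} [Fintype W] (τ σ : Equiv.Perm W)
    (hτ : ∀ w, τ (τ w) = w) (hσ : ∀ w, σ (σ w) = w) (hτ1 : ∀ w, τ w ≠ w) (hσ1 : ∀ w, σ w ≠ w) :
    ∃ c : W → Bool, (∀ w, c (τ w) ≠ c w) ∧ (∀ w, c (σ w) ≠ c w) := by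
  classical
  have hττ : τ * τ = 1 := Equiv.ext hτ
  have hσσ : σ * σ = 1 := Equiv.ext hσ
  have hτi : τ⁻¹ = τ := inv_eq_of_mul_eq_one_left hττ
  have hσi : σ⁻¹ = σ := inv_eq_of_mul_eq_one_left hσσ
  set π : Equiv.Perm W := σ * τ with hπ
  have hconj : ∀ j : ℤ, τ * π ^ j = π ^ (-j) * τ := by
    intro j
    have h1 : τ * π * τ⁻¹ = π⁻¹ := by
      rw [hπ, mul_inv_rev, hτi, hσi, mul_assoc, mul_assoc, hττ, mul_one]
    have h2 : τ * π ^ j * τ⁻¹ = π ^ (-j) := by
      rw [← conj_zpow, h1, inv_zpow, zpow_neg]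
    rw [← h2]
    group
  have hne : ∀ w, ¬ π.SameCycle w (τ w) := by
    rintro w ⟨j, hj⟩
    rcases Int.even_or_odd' j with ⟨i, hi | hi⟩
    · apply hτ1 ((π ^ i) w)
      have h := congrArg (fun p : Equiv.Perm W => p w) (hconj i)
      simp only [Equiv.Perm.mul_apply] at h
      rw [h, ← hj, hi, ← Equiv.Perm.mul_apply, ← zpow_add]
      congr 2
      ring
    · apply hσ1 ((π ^ (i + 1)) w)
      have hσe : σ = π * τ := by rw [hπ, mul_assoc, hττ, mul_one]
      have h := congrArg (fun p : Equiv.Perm W => p w) (hconj (i + 1))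
      simp only [Equiv.Perm.mul_apply] at h
      rw [hσe, Equiv.Perm.mul_apply, h, ← hj, hi, ← Equiv.Perm.mul_apply,
        ← Equiv.Perm.mul_apply]
      have h5 : π * π ^ (-(i + 1)) * π ^ (2 * i + 1) = π ^ (i + 1) := by
        rw [← zpow_one_add, ← zpow_add]
        congr 1
        ring
      rw [h5]
  let S := Equiv.Perm.SameCycle.setoid π
  have : Fintype (Quotient S) := Fintype.ofFinite _
  let e := Fintype.equivFin (Quotient S)
  have hq : ∀ a b : W, π.SameCycle a b → (Quotient.mk S a) = (Quotient.mk S b) :=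
    fun a b h => Quotient.sound h
  have hq' : ∀ w, (Quotient.mk S w) ≠ (Quotient.mk S (τ w)) :=
    fun w h => hne w (Quotient.exact h)
  have hlt : ∀ w, e (Quotient.mk S w) ≠ e (Quotient.mk S (τ w)) :=
    fun w h => hq' w (e.injective h)
  have hc1 : ∀ w, decide (e (Quotient.mk S (τ w)) < e (Quotient.mk S w)) ≠
      decide (e (Quotient.mk S w) < e (Quotient.mk S (τ w))) := by
    intro w h
    have h0 := hlt w
    rcases lt_or_gt_of_ne h0 with h1 | h1
    · simp [h1, not_lt.2 h1.le] at h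
    · simp [h1, not_lt.2 h1.le] at h
  refine ⟨fun w => decide (e (Quotient.mk S w) < e (Quotient.mk S (τ w))), ?_, ?_⟩
  · intro w
    show decide (e (Quotient.mk S (τ w)) < e (Quotient.mk S (τ (τ w)))) ≠ _
    rw [hτ w]
    exact hc1 w
  · intro w
    have e1 : (Quotient.mk S (σ w)) = (Quotient.mk S (τ w)) := by
      apply hq
      refine ⟨-1, ?_⟩
      rw [zpow_neg_one, hπ, mul_inv_rev, hτi, hσi, Equiv.Perm.mul_apply, hσ]
    have e2 : (Quotient.mk S (τ (σ w))) = (Quotient.mk S w) := by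
      apply hq
      refine ⟨1, ?_⟩
      rw [zpow_one, hπ, Equiv.Perm.mul_apply, hτ, hσ]
    show decide (e (Quotient.mk S (σ w)) < e (Quotient.mk S (τ (σ w)))) ≠ _
    rw [e1, e2]
    exact hc1 w

/-- The same with fixed points allowed for the second involution. -/
lemma two_inv' {V : Type} [Fintype V] (τ σ : V → V)
    (hτ : ∀ w, τ (τ w) = w) (hσ : ∀ w, σ (σ w) = w) (hτ1 : ∀ w, τ w ≠ w) :
    ∃ c : V → Bool, (∀ w, c (τ w) ≠ c w) ∧ (∀ w, σ w ≠ w → c (σ w) ≠ c w) := by
  classical
  have hT : Function.Involutive (fun p : V × Bool => (τ p.1, p.2)) := by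
    rintro ⟨v, b⟩; simp [hτ]
  have hS : Function.Involutive
      (fun p : V × Bool => if σ p.1 = p.1 then (p.1, !p.2) else (σ p.1, p.2)) := by
    rintro ⟨v, b⟩
    by_cases h : σ v = v
    · simp [h]
    · have h' : ¬ v = σ v := fun h2 => h h2.symm
      simp [h, hσ, h']
  obtain ⟨c, h1, h2⟩ := two_inv hT.toPerm hS.toPerm hT hS
    (by
      rintro ⟨v, b⟩ h
      exact hτ1 v (congrArg Prod.fst h))
    (by
      rintro ⟨v, b⟩ h
      have h' : (if σ v = v then (v, !b) else (σ v, b)) = (v, b) := h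
      by_cases hv : σ v = v
      · rw [if_pos hv] at h'
        have := congrArg Prod.snd h'
        simp at this
      · rw [if_neg hv] at h'
        exact hv (congrArg Prod.fst h'))
  refine ⟨fun v => c (v, true), fun w => h1 (w, true), fun w hw => ?_⟩
  have h3 := h2 (w, true)
  have h4 : (hS.toPerm) (w, true) = (σ w, true) := by
    show (if σ w = w then (w, !true) else (σ w, true)) = _
    rw [if_neg hw]
  rw [h4] at h3
  exact h3

/-- The pairings of the blocks. -/
lemma blocks {V : Type} [Fintype V] [DecidableEq V] (f : V → ℕ)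
    (hblock : ∀ v : V, (Finset.univ.filter (fun w : V => f w = f v)).card = 4) :
    ∃ τ ρ : V → V, (∀ v, τ (τ v) = v) ∧ (∀ v, ρ (ρ v) = v) ∧ (∀ v, τ (ρ v) = ρ (τ v)) ∧
      (∀ v, τ v ≠ v) ∧ (∀ v, ρ v ≠ v) ∧ (∀ v, τ (ρ v) ≠ v) ∧
      (∀ v, f (τ v) = f v) ∧ (∀ v, f (ρ v) = f v) ∧
      (∀ v w, f w = f v → w = v ∨ w = τ v ∨ w = ρ v ∨ w = τ (ρ v)) := by
  classical
  have hE : ∀ n : ℕ, (∃ v, f v = n) → Nonempty ({w // f w = n} ≃ Bool × Bool) := by
    rintro n ⟨v, rfl⟩
    refine ⟨Fintype.equivOfCardEq ?_⟩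
    rw [Fintype.card_subtype, hblock v]
    rfl
  let e : ∀ n : ℕ, (∃ v, f v = n) → ({w // f w = n} ≃ Bool × Bool) :=
    fun n h => Classical.choice (hE n h)
  let mk : (Bool × Bool → Bool × Bool) → V → V := fun g v =>
    ((e (f v) ⟨v, rfl⟩).symm (g (e (f v) ⟨v, rfl⟩ ⟨v, rfl⟩))).1
  have hmk : ∀ g (n : ℕ) (h : ∃ v, f v = n) (x : {w // f w = n}),
      mk g x.1 = ((e n h).symm (g (e n h x))).1 := by
    rintro g n h ⟨x, rfl⟩
    rfl
  have hf : ∀ g v, f (mk g v) = f v := fun g v =>
    ((e (f v) ⟨v, rfl⟩).symm (g (e (f v) ⟨v, rfl⟩ ⟨v, rfl⟩))).2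
  have hcomp : ∀ g g' v, mk g (mk g' v) = mk (g ∘ g') v := by
    intro g g' v
    have h := hmk g (f v) ⟨v, rfl⟩ ((e (f v) ⟨v, rfl⟩).symm (g' (e (f v) ⟨v, rfl⟩ ⟨v, rfl⟩)))
    rw [Equiv.apply_symm_apply] at h
    exact h
  have hid : ∀ v, mk id v = v := by
    intro v
    show ((e (f v) ⟨v, rfl⟩).symm (e (f v) ⟨v, rfl⟩ ⟨v, rfl⟩)).1 = v
    rw [Equiv.symm_apply_apply]
  have hne : ∀ g, (∀ x, g x ≠ x) → ∀ v, mk g v ≠ v := by
    intro g hg v h
    apply hg (e (f v) ⟨v, rfl⟩ ⟨v, rfl⟩)
    have h1 : (e (f v) ⟨v, rfl⟩).symm (g (e (f v) ⟨v, rfl⟩ ⟨v, rfl⟩)) = ⟨v, rfl⟩ :=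
      Subtype.ext h
    rw [Equiv.symm_apply_eq] at h1
    exact h1
  have hall : ∀ v w, f w = f v → ∃ g : Bool × Bool → Bool × Bool,
      (g = id ∨ g = (fun p => (!p.1, p.2)) ∨ g = (fun p => (p.1, !p.2)) ∨
        g = (fun p => (!p.1, !p.2))) ∧ w = mk g v := by
    intro v w hw
    have key : ∀ x y : Bool × Bool, ∃ g : Bool × Bool → Bool × Bool,
      (g = id ∨ g = (fun p => (!p.1, p.2)) ∨ g = (fun p => (p.1, !p.2)) ∨
        g = (fun p => (!p.1, !p.2))) ∧ y = g x := by
      rintro ⟨a, b⟩ ⟨c, d⟩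
      have hb : ∀ x y : Bool, ¬ y = x → y = !x := by decide
      by_cases h1 : c = a
      · by_cases h2 : d = b
        · exact ⟨id, Or.inl rfl, by rw [h1, h2]; rfl⟩
        · refine ⟨_, Or.inr (Or.inr (Or.inl rfl)), ?_⟩
          rw [h1, hb _ _ h2]
      · by_cases h2 : d = b
        · refine ⟨_, Or.inr (Or.inl rfl), ?_⟩
          rw [h2, hb _ _ h1]
        · refine ⟨_, Or.inr (Or.inr (Or.inr rfl)), ?_⟩
          rw [hb _ _ h2, hb _ _ h1]
    obtain ⟨g, hg, hy⟩ := key (e (f v) ⟨v, rfl⟩ ⟨v, rfl⟩) (e (f v) ⟨v, rfl⟩ ⟨w, hw⟩)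
    refine ⟨g, hg, ?_⟩
    show w = ((e (f v) ⟨v, rfl⟩).symm (g (e (f v) ⟨v, rfl⟩ ⟨v, rfl⟩))).1
    rw [← hy, Equiv.symm_apply_apply]
  clear_value mk
  let g1 : Bool × Bool → Bool × Bool := fun p => (!p.1, p.2)
  let g2 : Bool × Bool → Bool × Bool := fun p => (p.1, !p.2)
  let g3 : Bool × Bool → Bool × Bool := fun p => (!p.1, !p.2)
  have c11 : g1 ∘ g1 = id := by
    funext p
    show ((!(!p.1)), p.2) = p
    rw [Bool.not_not]
  have c22 : g2 ∘ g2 = id := by
    funext p
    show (p.1, (!(!p.2))) = p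
    rw [Bool.not_not]
  have n1 : ∀ x, g1 x ≠ x := by
    rintro ⟨a, b⟩ h
    have h' : (!a) = a := congrArg Prod.fst h
    cases a <;> simp at h'
  have n2 : ∀ x, g2 x ≠ x := by
    rintro ⟨a, b⟩ h
    have h' : (!b) = b := congrArg Prod.snd h
    cases b <;> simp at h'
  have n3 : ∀ x, g3 x ≠ x := by
    rintro ⟨a, b⟩ h
    have h' : (!a) = a := congrArg Prod.fst h
    cases a <;> simp at h'
  refine ⟨mk g1, mk g2, ?_, ?_, ?_, hne g1 n1, hne g2 n2, ?_, hf g1, hf g2, ?_⟩
  · intro v
    rw [hcomp, c11, hid]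
  · intro v
    rw [hcomp, c22, hid]
  · intro v
    rw [hcomp, hcomp]
    rfl
  · intro v
    rw [hcomp]
    exact hne g3 n3 v
  · intro v w hw
    obtain ⟨g, hg, rfl⟩ := hall v w hw
    rcases hg with rfl | rfl | rfl | rfl
    · exact Or.inl (hid v)
    · exact Or.inr (Or.inl rfl)
    · exact Or.inr (Or.inr (Or.inl rfl))
    · refine Or.inr (Or.inr (Or.inr ?_))
      rw [hcomp]
      rfl

/-- Reduction: a 2-colouring `c` which splits the pairs of `τ` and in which no vertex has the
colour of two of its neighbours gives a 4-colouring. -/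
lemma four_of_two {V : Type} [Fintype V] (G : SimpleGraph V) (f : V → ℕ) (τ ρ : V → V)
    (h1 : ∀ v, τ (τ v) = v) (h2 : ∀ v, ρ (ρ v) = v) (h3 : ∀ v, τ (ρ v) = ρ (τ v))
    (h5 : ∀ v, ρ v ≠ v) (h6 : ∀ v, τ (ρ v) ≠ v)
    (h9 : ∀ v w, f w = f v → w = v ∨ w = τ v ∨ w = ρ v ∨ w = τ (ρ v))
    (c : V → Bool) (hc : ∀ v, c (τ v) ≠ c v)
    (hP : ∀ v a b, G.Adj v a → G.Adj v b → c a = c v → c b = c v → a = b) :
    (G ⊔ SimpleGraph.fromRel (fun v w : V => f v = f w)).Colorable 4 := by
  classical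
  let τ2 : V → V := fun v => if c (ρ v) = c v then ρ v else τ (ρ v)
  let σ2 : V → V := fun v => if h : ∃ w, G.Adj v w ∧ c w = c v then h.choose else v
  have hσ2 : ∀ v w, G.Adj v w → c w = c v → σ2 v = w := by
    intro v w hvw hcw
    have h : ∃ w, G.Adj v w ∧ c w = c v := ⟨w, hvw, hcw⟩
    have e1 : σ2 v = h.choose := dif_pos h
    rw [e1]
    exact hP v _ _ h.choose_spec.1 hvw h.choose_spec.2 hcw
  have hbool : ∀ a b d : Bool, a ≠ b → d ≠ b → a = d := by decide
  have hτ2 : ∀ v, τ2 (τ2 v) = v := by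
    intro v
    by_cases h : c (ρ v) = c v
    · have e1 : τ2 v = ρ v := if_pos h
      rw [e1]
      have e2 : τ2 (ρ v) = ρ (ρ v) := if_pos (by rw [h2, h])
      rw [e2, h2]
    · have e1 : τ2 v = τ (ρ v) := if_neg h
      rw [e1]
      have h7 : c (τ (ρ v)) = c v := hbool _ _ _ (hc (ρ v)) (Ne.symm h)
      have h8 : ρ (τ (ρ v)) = τ v := by rw [← h3, h2]
      have e2 : τ2 (τ (ρ v)) = τ (ρ (τ (ρ v))) := if_neg (by rw [h8, h7]; exact hc v)
      rw [e2, h8, h1]
  have hσ2i : ∀ v, σ2 (σ2 v) = v := by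
    intro v
    by_cases h : ∃ w, G.Adj v w ∧ c w = c v
    · obtain ⟨w, hw, hcw⟩ := h
      rw [hσ2 v w hw hcw]
      exact hσ2 w v hw.symm hcw.symm
    · have e1 : σ2 v = v := dif_neg h
      rw [e1, e1]
  have hτ2n : ∀ v, τ2 v ≠ v := by
    intro v
    by_cases h : c (ρ v) = c v
    · have e1 : τ2 v = ρ v := if_pos h
      rw [e1]; exact h5 v
    · have e1 : τ2 v = τ (ρ v) := if_neg h
      rw [e1]; exact h6 v
  obtain ⟨d, hd1, hd2⟩ := two_inv' τ2 σ2 hτ2 hσ2i hτ2n
  let C : SimpleGraph.Coloring (G ⊔ SimpleGraph.fromRel (fun v w : V => f v = f w))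
      (Bool × Bool) := SimpleGraph.Coloring.mk (fun v => (c v, d v)) (by
    intro v w hvw hcd
    have hcc : c v = c w := congrArg Prod.fst hcd
    have hdd : d v = d w := congrArg Prod.snd hcd
    rcases hvw with hvw | hvw
    · have e1 := hσ2 v w hvw hcc.symm
      have e2 := hd2 v (by rw [e1]; exact hvw.ne')
      rw [e1] at e2
      exact e2 hdd.symm
    · rw [SimpleGraph.fromRel_adj] at hvw
      have hfw : f w = f v := by
        rcases hvw.2 with h | h
        · exact h.symm
        · exact h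
      rcases h9 v w hfw with rfl | rfl | rfl | rfl
      · exact hvw.1 rfl
      · exact hc v hcc.symm
      · have e1 : τ2 v = ρ v := if_pos hcc.symm
        have := hd1 v
        rw [e1] at this
        exact this hdd.symm
      · have h7 : c (ρ v) ≠ c v := by
          intro h
          exact hc (ρ v) (by rw [← hcc, h])
        have e1 : τ2 v = τ (ρ v) := if_neg h7
        have := hd1 v
        rw [e1] at this
        exact this hdd.symm)
  have := C.colorable
  simpa using this

/-- `v` lies in a triangle of `G`. -/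
def InTriangle {V : Type} (G : SimpleGraph V) (v : V) : Prop :=
  ∃ a b, G.Adj v a ∧ G.Adj v b ∧ G.Adj a b

/-- The matching of a 2-regular graph all whose odd cycles are triangles. -/
lemma exists_sigma {V : Type} [Fintype V] [DecidableEq V] (G : SimpleGraph V) [DecidableRel G.Adj]
    (hdeg : ∀ v : V, G.degree v = 2)
    (htwo : ∀ w a b v, G.Adj w a → G.Adj w b → a ≠ b → G.Adj w v → v = a ∨ v = b)
    (hodd : (G.induce {v | ¬ InTriangle G v}).Colorable 2) :
    ∃ σ : V → V, (∀ v, σ (σ v) = v) ∧ (∀ v, σ v ≠ v → G.Adj v (σ v)) ∧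
      (∀ v, σ v = v → ∃ a b, G.Adj v a ∧ G.Adj v b ∧ a ≠ b ∧ σ a = b) := by
  classical
  have hT : ∀ v w, G.Adj v w → InTriangle G w → InTriangle G v := by
    rintro v w hvw ⟨a, b, ha, hb, hab⟩
    rcases htwo w a b v ha hb hab.ne hvw.symm with rfl | rfl
    · exact ⟨w, b, hvw, hab, hb⟩
    · exact ⟨w, a, hvw, hab.symm, ha⟩
  -- the 2-colouring outside the triangles
  obtain ⟨C⟩ := hodd
  obtain ⟨s, hs⟩ : ∃ s : V → Bool, ∀ v w, ¬ InTriangle G v → ¬ InTriangle G w → G.Adj v w →
      s v ≠ s w := by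
    refine ⟨fun v => if h : ¬ InTriangle G v then decide (C ⟨v, h⟩ = 0) else false, ?_⟩
    intro v w hv hw hvw
    have h1 : C ⟨v, hv⟩ ≠ C ⟨w, hw⟩ := C.valid (by exact hvw)
    simp only [dif_pos hv, dif_pos hw]
    have h2 : ∀ x y : Fin 2, x ≠ y → decide (x = 0) ≠ decide (y = 0) := by decide
    exact h2 _ _ h1
  -- Hall's theorem
  obtain ⟨g, hg, hgadj⟩ : ∃ g : V → V, Function.Injective g ∧ ∀ v, g v ∈ G.neighborFinset v := by
    rw [← Finset.all_card_le_biUnion_card_iff_exists_injective]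
    intro S
    have h := Finset.card_mul_le_card_mul (s := S) (t := S.biUnion (fun v => G.neighborFinset v))
      (m := 2) (n := 2) (fun v w => G.Adj v w) ?_ ?_
    · omega
    · intro v hv
      rw [← hdeg v, ← G.card_neighborFinset_eq_degree]
      apply Finset.card_le_card
      intro w hw
      rw [Finset.mem_bipartiteAbove]
      exact ⟨Finset.mem_biUnion.2 ⟨v, hv, hw⟩, by simpa using hw⟩
    · intro w _
      rw [← hdeg w, ← G.card_neighborFinset_eq_degree]
      apply Finset.card_le_card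
      intro v hv
      rw [Finset.mem_bipartiteBelow] at hv
      simpa using hv.2.symm
  let π : V ≃ V := Equiv.ofBijective g (Finite.injective_iff_bijective.1 hg)
  have hπ : ∀ v, G.Adj v (π v) := fun v => (G.mem_neighborFinset v (g v)).1 (hgadj v)
  have hπs : ∀ v, G.Adj v (π.symm v) := fun v => by
    have := hπ (π.symm v)
    rw [Equiv.apply_symm_apply] at this
    exact this.symm
  let e := Fintype.equivFin V
  let Mn : V → Prop := fun v => ∀ w, G.Adj v w → e v < e w
  let σ : V → V := fun v => if InTriangle G v then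
      (if Mn v then v else if h : ∃ w, G.Adj v w ∧ ¬ Mn w then h.choose else v)
    else if s v then π v else π.symm v
  have hσT : ∀ x a b, G.Adj x a → G.Adj x b → G.Adj a b → Mn a → σ x = b := by
    intro x a b hxa hxb hab hm
    have hx : InTriangle G x := ⟨a, b, hxa, hxb, hab⟩
    have hnx : ¬ Mn x := fun h => absurd (h a hxa) (not_lt.2 (hm x hxa.symm).le)
    have hnb : ¬ Mn b := fun h => absurd (h a hab.symm) (not_lt.2 (hm b hab).le)
    have h : ∃ w, G.Adj x w ∧ ¬ Mn w := ⟨b, hxb, hnb⟩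
    have e1 : σ x = h.choose := by
      show (if InTriangle G x then
        (if Mn x then x else if h : ∃ w, G.Adj x w ∧ ¬ Mn w then h.choose else x)
        else if s x then π x else π.symm x) = _
      rw [if_pos hx, if_neg hnx, dif_pos h]
    rw [e1]
    rcases htwo x a b _ hxa hxb hab.ne h.choose_spec.1 with h2 | h2
    · exact absurd (h2 ▸ hm : Mn h.choose) h.choose_spec.2
    · exact h2
  have hσM : ∀ x, InTriangle G x → Mn x → σ x = x := by
    intro x hx hm
    show (if InTriangle G x then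
        (if Mn x then x else if h : ∃ w, G.Adj x w ∧ ¬ Mn w then h.choose else x)
        else if s x then π x else π.symm x) = _
    rw [if_pos hx, if_pos hm]
  have hmin : ∀ x a b, G.Adj x a → G.Adj x b → G.Adj a b → Mn x ∨ Mn a ∨ Mn b := by
    intro x a b hxa hxb hab
    have n1 : e x ≠ e a := fun h => hxa.ne (e.injective h)
    have n2 : e x ≠ e b := fun h => hxb.ne (e.injective h)
    have n3 : e a ≠ e b := fun h => hab.ne (e.injective h)
    rcases lt_or_gt_of_ne n1 with l1 | l1
    · rcases lt_or_gt_of_ne n2 with l2 | l2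
      · left
        intro w hw
        rcases htwo x a b w hxa hxb hab.ne hw with rfl | rfl
        · exact l1
        · exact l2
      · right; right
        intro w hw
        rcases htwo b x a w hxb.symm hab.symm hxa.ne hw with rfl | rfl
        · exact l2
        · exact l2.trans l1
    · rcases lt_or_gt_of_ne n3 with l3 | l3
      · right; left
        intro w hw
        rcases htwo a x b w hxa.symm hab hxb.ne hw with rfl | rfl
        · exact l1
        · exact l3
      · right; right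
        intro w hw
        rcases htwo b x a w hxb.symm hab.symm hxa.ne hw with rfl | rfl
        · exact l3.trans l1
        · exact l3
  have hσn : ∀ v, ¬ InTriangle G v → σ v = if s v then π v else π.symm v := by
    intro v hv
    show (if InTriangle G v then
        (if Mn v then v else if h : ∃ w, G.Adj v w ∧ ¬ Mn w then h.choose else v)
        else if s v then π v else π.symm v) = _
    rw [if_neg hv]
  have hσnadj : ∀ v, ¬ InTriangle G v → G.Adj v (σ v) := by
    intro v hv
    rw [hσn v hv]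
    by_cases h : s v = true
    · rw [if_pos h]; exact hπ v
    · rw [if_neg h]; exact hπs v
  refine ⟨σ, ?_, ?_, ?_⟩
  · intro v
    by_cases hv : InTriangle G v
    · have hv0 := hv
      obtain ⟨a, b, hva, hvb, hab⟩ := hv
      rcases hmin v a b hva hvb hab with hm | hm | hm
      · rw [hσM v hv0 hm, hσM v hv0 hm]
      · rw [hσT v a b hva hvb hab hm]
        exact hσT b a v hab.symm hvb.symm hva.symm hm
      · rw [hσT v b a hvb hva hab.symm hm]
        exact hσT a b v hab hva.symm hvb.symm hm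
    · have hadj := hσnadj v hv
      have hv' : ¬ InTriangle G (σ v) := fun h => hv (hT _ _ hadj h)
      have hsv := hs v (σ v) hv hv' hadj
      rw [hσn (σ v) hv']
      by_cases h : s v = true
      · have h2 : ¬ s (σ v) = true := fun h3 => hsv (by rw [h, h3])
        rw [if_neg h2, hσn v hv, if_pos h, Equiv.symm_apply_apply]
      · have h2 : s (σ v) = true := by
          cases h3 : s (σ v)
          · exact absurd (by rw [h3]; simpa using h) hsv
          · rfl
        rw [if_pos h2, hσn v hv, if_neg h, Equiv.apply_symm_apply]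
  · intro v hne
    by_cases hv : InTriangle G v
    · have hv0 := hv
      obtain ⟨a, b, hva, hvb, hab⟩ := hv
      rcases hmin v a b hva hvb hab with hm | hm | hm
      · exact absurd (hσM v hv0 hm) hne
      · rw [hσT v a b hva hvb hab hm]; exact hvb
      · rw [hσT v b a hvb hva hab.symm hm]; exact hva
    · exact hσnadj v hv
  · intro v he
    by_cases hv : InTriangle G v
    · have hv0 := hv
      obtain ⟨a, b, hva, hvb, hab⟩ := hv
      rcases hmin v a b hva hvb hab with hm | hm | hm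
      · exact ⟨a, b, hva, hvb, hab.ne, hσT a v b hva.symm hab hvb hm⟩
      · rw [hσT v a b hva hvb hab hm] at he
        exact absurd he hvb.ne'
      · rw [hσT v b a hvb hva hab.symm hm] at he
        exact absurd he hva.ne'
    · have := hσnadj v hv
      rw [he] at this
      exact absurd this (G.loopless.irrefl v)

/-- Let `G` be a 2-regular graph (a disjoint union of cycles) all whose odd cycles are triangles:
outside the triangles `G` is 2-colourable.  For every partition of the vertices into blocks of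
size 4 (the fibres of `f`) the graph obtained from `G` by adding all edges inside the blocks is
4-colourable. -/
theorem result (V : Type) [Fintype V] [DecidableEq V] (G : SimpleGraph V) [DecidableRel G.Adj]
    (f : V → ℕ) (hdeg : ∀ v : V, G.degree v = 2)
    (hblock : ∀ v : V, (Finset.univ.filter (fun w : V => f w = f v)).card = 4)
    (hodd : (G.induce {v | ¬ InTriangle G v}).Colorable 2) :
    (G ⊔ SimpleGraph.fromRel (fun v w : V => f v = f w)).Colorable 4 := by
  classical
  have htwo : ∀ w a b v, G.Adj w a → G.Adj w b → a ≠ b → G.Adj w v → v = a ∨ v = b := by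
    intro w a b v ha hb hab hv
    by_contra hcon
    push Not at hcon
    have hsub : ({a, b, v} : Finset V) ⊆ G.neighborFinset w := by
      intro x hx
      simp only [Finset.mem_insert, Finset.mem_singleton] at hx
      rcases hx with rfl | rfl | rfl <;> simpa
    have hcard := Finset.card_le_card hsub
    rw [G.card_neighborFinset_eq_degree, hdeg w,
      Finset.card_eq_three.2 ⟨a, b, v, hab, hcon.1.symm, hcon.2.symm, rfl⟩] at hcard
    omega
  obtain ⟨σ, hσ, hσadj, hσfix⟩ := exists_sigma G hdeg htwo hodd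
  obtain ⟨τ, ρ, h1, h2, h3, h4, h5, h6, -, -, h9⟩ := blocks f hblock
  obtain ⟨c, hc1, hc2⟩ := two_inv' τ σ h1 hσ h4
  refine four_of_two G f τ ρ h1 h2 h3 h5 h6 h9 c hc1 ?_
  intro v a b ha hb hca hcb
  by_contra hab
  by_cases hv : σ v = v
  · obtain ⟨a', b', ha', hb', hab', hs⟩ := hσfix v hv
    have hne : c (σ a') ≠ c a' := hc2 a' (by rw [hs]; exact hab'.symm)
    rw [hs] at hne
    have e1 : c a' = c v := by
      rcases htwo v a b a' ha hb hab ha' with rfl | rfl
      · exact hca
      · exact hcb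
    have e2 : c b' = c v := by
      rcases htwo v a b b' ha hb hab hb' with rfl | rfl
      · exact hca
      · exact hcb
    exact hne (by rw [e1, e2])
  · have hne := hc2 v hv
    rcases htwo v a b (σ v) ha hb hab (hσadj v hv) with h | h
    · rw [h] at hne; exact hne hca
    · rw [h] at hne; exact hne hcb

end Pool.Agent.Results.MP_d2bbf8_co.EvenAndTriangles
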